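import Pool.Agent.H37.CNX.Stmts

/-!
Row XES of the board `cnx` (statement in `Pool/Agent/H37/CNX/Stmts.lean`): extraspecial `p`-groups, `p` odd.
`χ` = a faithful character of the centre, `β v g = χ [v, g]`; character sums give `v` with `g ^ p = [v, g]` for all `g`,
and `|M| ^ 2 = |G| |Z|` for `M` maximal among the elementary abelian subgroups with `v ∈ M`.
-/

set_option autoImplicit false

namespace Pool.CND

open Finset
open scoped IsMulCommutative

namespace XESAux

variable {G : Type} [Group G]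

/-- the commutator -/
def cm (v g : G) : G := v * g * v⁻¹ * g⁻¹

theorem cm_mul_right (hc : ∀ g g' : G, g * g' * g⁻¹ * g'⁻¹ ∈ Subgroup.center G) (v g h : G) :
    cm v (g * h) = cm v g * cm v h := by
  have h1 := Subgroup.mem_center_iff.1 (hc v h) g⁻¹
  have h2 : cm v (g * h) = v * g * v⁻¹ * ((v * h * v⁻¹ * h⁻¹) * g⁻¹) := by
    unfold cm; group
  rw [h2, ← h1]
  unfold cm; group

theorem cm_mul_left (hc : ∀ g g' : G, g * g' * g⁻¹ * g'⁻¹ ∈ Subgroup.center G) (v w g : G) :
    cm (v * w) g = cm v g * cm w g := by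
  have h1 := Subgroup.mem_center_iff.1 (hc w g) v
  have h2 : cm (v * w) g = (v * (w * g * w⁻¹ * g⁻¹)) * g * v⁻¹ * g⁻¹ := by
    unfold cm; group
  have h3 := Subgroup.mem_center_iff.1 (hc w g) (g * v⁻¹ * g⁻¹)
  rw [h2, h1]
  have h4 : w * g * w⁻¹ * g⁻¹ * v * g * v⁻¹ * g⁻¹ = (w * g * w⁻¹ * g⁻¹) * cm v g := by
    unfold cm; group
  rw [h4]
  exact (Subgroup.mem_center_iff.1 (hc w g) (cm v g)).symm

theorem cm_pow_left (hc : ∀ g g' : G, g * g' * g⁻¹ * g'⁻¹ ∈ Subgroup.center G) (v g : G) (n : ℕ) :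
    cm (v ^ n) g = cm v g ^ n := by
  induction n with
  | zero => simp [cm]
  | succ n ih => rw [pow_succ, cm_mul_left hc, ih, pow_succ]

theorem mul_pow_cm (hc : ∀ g g' : G, g * g' * g⁻¹ * g'⁻¹ ∈ Subgroup.center G) (g h : G) (n : ℕ) :
    (g * h) ^ n = g ^ n * h ^ n * cm h g ^ (n * (n - 1) / 2) := by
  induction n with
  | zero => simp
  | succ n ih =>
    have hz : ∀ (k : ℕ) (x : G), x * cm h g ^ k = cm h g ^ k * x := fun k x =>
      Subgroup.mem_center_iff.1 (Subgroup.pow_mem _ (hc h g) k) x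
    have e1 : h ^ n * g = cm h g ^ n * (g * h ^ n) := by
      rw [← cm_pow_left hc]; unfold cm; group
    have e2 : (n + 1) * (n + 1 - 1) / 2 = n + n * (n - 1) / 2 := by
      have := Nat.triangle_succ n
      simpa [Nat.add_comm] using this
    rw [pow_succ, ih, e2, pow_succ g n, pow_succ h n, pow_add]
    have e3 : cm h g ^ n * (g * h ^ n) = g * h ^ n * cm h g ^ n := (hz n _).symm
    calc g ^ n * h ^ n * cm h g ^ (n * (n - 1) / 2) * (g * h)
        = g ^ n * h ^ n * (cm h g ^ (n * (n - 1) / 2) * (g * h)) := by group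
      _ = g ^ n * (h ^ n * g) * h * cm h g ^ (n * (n - 1) / 2) := by
          rw [← hz]; group
      _ = g ^ n * (g * h ^ n * cm h g ^ n) * h * cm h g ^ (n * (n - 1) / 2) := by rw [e1, e3]
      _ = g ^ n * (g * h ^ n) * (cm h g ^ n * h) * cm h g ^ (n * (n - 1) / 2) := by
          simp only [mul_assoc]
      _ = g ^ n * (g * h ^ n) * (h * cm h g ^ n) * cm h g ^ (n * (n - 1) / 2) := by
          rw [← hz n h]
      _ = _ := by simp only [mul_assoc]

/-- the pairing -/
noncomputable def bt (hc : ∀ g g' : G, g * g' * g⁻¹ * g'⁻¹ ∈ Subgroup.center G)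
    (χ : Subgroup.center G →* ℂ) (v g : G) : ℂ := χ ⟨cm v g, hc v g⟩

theorem bt_mul_right (hc : ∀ g g' : G, g * g' * g⁻¹ * g'⁻¹ ∈ Subgroup.center G)
    (χ : Subgroup.center G →* ℂ) (v g h : G) :
    bt hc χ v (g * h) = bt hc χ v g * bt hc χ v h := by
  unfold bt
  rw [← map_mul]
  congr 1
  exact Subtype.ext (cm_mul_right hc v g h)

theorem bt_mul_left (hc : ∀ g g' : G, g * g' * g⁻¹ * g'⁻¹ ∈ Subgroup.center G)
    (χ : Subgroup.center G →* ℂ) (v w g : G) :
    bt hc χ (v * w) g = bt hc χ v g * bt hc χ w g := by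
  unfold bt
  rw [← map_mul]
  congr 1
  exact Subtype.ext (cm_mul_left hc v w g)

theorem bt_one_right (hc : ∀ g g' : G, g * g' * g⁻¹ * g'⁻¹ ∈ Subgroup.center G)
    (χ : Subgroup.center G →* ℂ) (v : G) : bt hc χ v 1 = 1 := by
  unfold bt
  have : (⟨cm v 1, hc v 1⟩ : Subgroup.center G) = 1 := Subtype.ext (by simp [cm])
  rw [this, map_one]

theorem bt_one_left (hc : ∀ g g' : G, g * g' * g⁻¹ * g'⁻¹ ∈ Subgroup.center G)
    (χ : Subgroup.center G →* ℂ) (v : G) : bt hc χ 1 v = 1 := by
  unfold bt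
  have : (⟨cm 1 v, hc 1 v⟩ : Subgroup.center G) = 1 := Subtype.ext (by simp [cm])
  rw [this, map_one]

theorem bt_eq_one (hc : ∀ g g' : G, g * g' * g⁻¹ * g'⁻¹ ∈ Subgroup.center G)
    (χ : Subgroup.center G →* ℂ) (hχ : Function.Injective χ) (v g : G) :
    bt hc χ v g = 1 ↔ v * g = g * v := by
  unfold bt
  rw [← map_one χ, hχ.eq_iff, Subtype.ext_iff]
  unfold cm
  constructor
  · intro h
    have h' : v * g * v⁻¹ * g⁻¹ = 1 := h
    rw [mul_inv_eq_one, mul_inv_eq_iff_eq_mul] at h'
    exact h'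
  · intro h
    show v * g * v⁻¹ * g⁻¹ = 1
    rw [mul_inv_eq_one, mul_inv_eq_iff_eq_mul]
    exact h

/-- a faithful character of a group of prime order -/
theorem exists_chi {Z : Type} [CommGroup Z] [Finite Z] (hp : (Nat.card Z).Prime) :
    ∃ χ : Z →* ℂ, Function.Injective χ := by
  have : Fact (Nat.card Z).Prime := ⟨hp⟩
  have : Nontrivial Z := by
    rw [← Finite.one_lt_card_iff_nontrivial]; exact hp.one_lt
  obtain ⟨a, ha⟩ := exists_ne (1 : Z)
  obtain ⟨φ, hφ⟩ := CommGroup.exists_apply_ne_one_of_hasEnoughRootsOfUnity Z ℂ ha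
  refine ⟨(Units.coeHom ℂ).comp φ, ?_⟩
  have hker : φ.ker = ⊥ := by
    rcases Subgroup.eq_bot_or_eq_top_of_prime_card φ.ker with h | h
    · exact h
    · exfalso
      apply hφ
      have : a ∈ φ.ker := by rw [h]; trivial
      exact this
  have hi : Function.Injective φ := (MonoidHom.ker_eq_bot_iff φ).1 hker
  exact Units.val_injective.comp hi

/-- `v ↦ β v g` -/
noncomputable def btL (hc : ∀ g g' : G, g * g' * g⁻¹ * g'⁻¹ ∈ Subgroup.center G)
    (χ : Subgroup.center G →* ℂ) (g : G) : G →* ℂ where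
  toFun v := bt hc χ v g
  map_one' := bt_one_left hc χ g
  map_mul' v w := bt_mul_left hc χ v w g

/-- `g ↦ β v g` -/
noncomputable def btR (hc : ∀ g g' : G, g * g' * g⁻¹ * g'⁻¹ ∈ Subgroup.center G)
    (χ : Subgroup.center G →* ℂ) (v : G) : G →* ℂ where
  toFun g := bt hc χ v g
  map_one' := bt_one_right hc χ v
  map_mul' g h := bt_mul_right hc χ v g h

/-- the sum over `G` of `β v g` over `v` -/
theorem sum_btL [Fintype G] (hc : ∀ g g' : G, g * g' * g⁻¹ * g'⁻¹ ∈ Subgroup.center G)
    (χ : Subgroup.center G →* ℂ) (hχ : Function.Injective χ) (g : G) :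
    ∑ v : G, bt hc χ v g = open scoped Classical in
      if g ∈ Subgroup.center G then (Fintype.card G : ℂ) else 0 := by
  classical
  have h := sum_hom_units (btL hc χ g)
  have h1 : (btL hc χ g = 1) ↔ g ∈ Subgroup.center G := by
    rw [Subgroup.mem_center_iff]
    constructor
    · intro h v
      exact (bt_eq_one hc χ hχ v g).1 (DFunLike.congr_fun h v)
    · intro h
      exact MonoidHom.ext fun v => (bt_eq_one hc χ hχ v g).2 (h v)
  have h2 : ∑ v : G, bt hc χ v g = ∑ v : G, btL hc χ g v := rfl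
  rw [h2, h]
  by_cases hg : g ∈ Subgroup.center G
  · simp [hg, h1]
  · simp [hg, h1]

/-- every character trivial on the centre is a `β v` -/
theorem exists_v [Fintype G] (hc : ∀ g g' : G, g * g' * g⁻¹ * g'⁻¹ ∈ Subgroup.center G)
    (χ : Subgroup.center G →* ℂ) (hχ : Function.Injective χ) (f : G →* ℂ)
    (hf : ∀ z ∈ Subgroup.center G, f z = 1) : ∃ v : G, ∀ g : G, f g = bt hc χ v g := by
  classical
  by_contra hno
  push Not at hno
  -- the double sum
  have h1 : ∀ v : G, ∑ g : G, f g⁻¹ * bt hc χ v g = 0 := by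
    intro v
    let F : G →* ℂ :=
      { toFun := fun g => f g⁻¹ * bt hc χ v g
        map_one' := by simp [bt_one_right]
        map_mul' := fun g h => by
          rw [mul_inv_rev, map_mul, bt_mul_right]; ring }
    have hF : F ≠ 1 := by
      intro h
      obtain ⟨g, hg⟩ := hno v
      apply hg
      have h2 : f g⁻¹ * bt hc χ v g = 1 := DFunLike.congr_fun h g
      have h3 : f g * f g⁻¹ = 1 := by rw [← map_mul]; simp
      calc f g = f g * (f g⁻¹ * bt hc χ v g) := by rw [h2, mul_one]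
        _ = (f g * f g⁻¹) * bt hc χ v g := by ring
        _ = bt hc χ v g := by rw [h3, one_mul]
    exact sum_hom_units_eq_zero F hF
  have h2 : ∑ g : G, ∑ v : G, f g⁻¹ * bt hc χ v g = 0 := by
    rw [Finset.sum_comm]
    exact Finset.sum_eq_zero fun v _ => h1 v
  have h3 : ∑ g : G, ∑ v : G, f g⁻¹ * bt hc χ v g =
      ((univ.filter (fun g : G => g ∈ Subgroup.center G)).card : ℂ) * (Fintype.card G : ℂ) := by
    have : ∀ g : G, ∑ v : G, f g⁻¹ * bt hc χ v g =
        if g ∈ Subgroup.center G then (Fintype.card G : ℂ) else 0 := by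
      intro g
      rw [← Finset.mul_sum, sum_btL hc χ hχ g]
      by_cases hg : g ∈ Subgroup.center G
      · rw [if_pos hg, hf _ (Subgroup.inv_mem _ hg), one_mul]
      · rw [if_neg hg, mul_zero]
    rw [Finset.sum_congr rfl fun g _ => this g, ← Finset.sum_filter, Finset.sum_const,
      nsmul_eq_mul]
  rw [h3] at h2
  rcases mul_eq_zero.1 h2 with h | h
  · have hh : (univ.filter (fun g : G => g ∈ Subgroup.center G)).card = 0 := by exact_mod_cast h
    rw [Finset.card_eq_zero, Finset.filter_eq_empty_iff] at hh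
    exact hh (Finset.mem_univ 1) (Subgroup.one_mem _)
  · have hh : Fintype.card G = 0 := by exact_mod_cast h
    exact Fintype.card_ne_zero hh

/-- `|M| ^ 2 = |G| |Z|` for `M` commutative and equal to its centralizer -/
theorem card_sq [Fintype G] (hc : ∀ g g' : G, g * g' * g⁻¹ * g'⁻¹ ∈ Subgroup.center G)
    (χ : Subgroup.center G →* ℂ) (hχ : Function.Injective χ) (M : Subgroup G)
    (hM : ∀ a ∈ M, ∀ b ∈ M, a * b = b * a) (hM' : ∀ g : G, (∀ a ∈ M, a * g = g * a) → g ∈ M) :
    Nat.card M * Nat.card M = Nat.card G * Nat.card (Subgroup.center G) := by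
  classical
  have hZM : ∀ z ∈ Subgroup.center G, z ∈ M := fun z hz =>
    hM' z fun a _ => Subgroup.mem_center_iff.1 hz a
  -- sum over `m` first
  have h1 : ∀ g : G, ∑ m : M, bt hc χ (m : G) g = if g ∈ M then (Fintype.card M : ℂ) else 0 := by
    intro g
    let F : M →* ℂ := (btL hc χ g).comp M.subtype
    have h := sum_hom_units F
    have h0 : F = 1 ↔ g ∈ M := by
      constructor
      · intro h
        apply hM'
        intro a ha
        have : F ⟨a, ha⟩ = 1 := DFunLike.congr_fun h _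
        exact (bt_eq_one hc χ hχ a g).1 this
      · intro h
        exact MonoidHom.ext fun m => (bt_eq_one hc χ hχ m g).2 (hM m m.2 g h)
    have h2 : ∑ m : M, bt hc χ (m : G) g = ∑ m : M, F m := rfl
    rw [h2, h]
    by_cases hg : g ∈ M
    · simp [hg, h0]
    · simp [hg, h0]
  have h2 : ∀ m : M, ∑ g : G, bt hc χ (m : G) g =
      if (m : G) ∈ Subgroup.center G then (Fintype.card G : ℂ) else 0 := by
    intro m
    have h := sum_hom_units (btR hc χ (m : G))
    have h0 : btR hc χ (m : G) = 1 ↔ (m : G) ∈ Subgroup.center G := by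
      rw [Subgroup.mem_center_iff]
      constructor
      · intro h g
        exact ((bt_eq_one hc χ hχ m g).1 (DFunLike.congr_fun h g)).symm
      · intro h
        exact MonoidHom.ext fun g => (bt_eq_one hc χ hχ m g).2 (h g).symm
    have h3 : ∑ g : G, bt hc χ (m : G) g = ∑ g : G, btR hc χ (m : G) g := rfl
    rw [h3, h]
    by_cases hg : (m : G) ∈ Subgroup.center G
    · simp only [h0, hg, if_true]
    · simp only [h0, hg, if_false, Nat.cast_zero]
  have h3 : ∑ g : G, ∑ m : M, bt hc χ (m : G) g = (Fintype.card M : ℂ) * Fintype.card M := by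
    rw [Finset.sum_congr rfl fun g _ => h1 g, ← Finset.sum_filter, Finset.sum_const, nsmul_eq_mul]
    congr 2
    rw [← Fintype.card_subtype]
  have h4 : ∑ m : M, ∑ g : G, bt hc χ (m : G) g =
      (Fintype.card (Subgroup.center G) : ℂ) * Fintype.card G := by
    rw [Finset.sum_congr rfl fun m _ => h2 m, ← Finset.sum_filter, Finset.sum_const, nsmul_eq_mul]
    congr 2
    rw [← Fintype.card_subtype]
    refine Fintype.card_congr ⟨fun m => ⟨m.1.1, m.2⟩, fun z => ⟨⟨z.1, hZM z.1 z.2⟩, z.2⟩,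
      fun m => rfl, fun z => rfl⟩
  rw [Finset.sum_comm, h4] at h3
  have h5 : Fintype.card (Subgroup.center G) * Fintype.card G = Fintype.card M * Fintype.card M := by
    exact_mod_cast h3
  simp only [Nat.card_eq_fintype_card]
  rw [← h5, mul_comm]

end XESAux

open XESAux

theorem xes_thm : S_XES := by
  classical
  intro p h G _ _ hp hp2 hh hG hZ hpow hc
  have : Fintype G := Fintype.ofFinite G
  obtain ⟨χ, hχ⟩ := exists_chi (Z := Subgroup.center G) (by rw [hZ]; exact hp)
  -- `z ^ p = 1` on the centre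
  have hzp : ∀ z ∈ Subgroup.center G, z ^ p = 1 := by
    intro z hz
    have h1 : (⟨z, hz⟩ : Subgroup.center G) ^ Nat.card (Subgroup.center G) = 1 := pow_card_eq_one'
    rw [hZ] at h1
    exact congrArg Subtype.val h1
  have hodd : p * (p - 1) / 2 = p * ((p - 1) / 2) := by
    obtain ⟨c, hc⟩ := hp.odd_of_ne_two hp2
    rw [Nat.mul_div_assoc]
    exact ⟨c, by omega⟩
  have hpm : ∀ g g' : G, (g * g') ^ p = g ^ p * g' ^ p := by
    intro g g'
    have h1 : cm g' g ^ p = 1 := hzp _ (hc g' g)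
    rw [mul_pow_cm hc, hodd, pow_mul, h1, one_pow, mul_one]
  let f : G →* ℂ :=
    { toFun := fun g => χ ⟨g ^ p, hpow g⟩
      map_one' := by
        have : (⟨(1 : G) ^ p, hpow 1⟩ : Subgroup.center G) = 1 := Subtype.ext (one_pow p)
        rw [this, map_one]
      map_mul' := fun g g' => by
        rw [← map_mul]
        congr 1
        exact Subtype.ext (hpm g g') }
  obtain ⟨v, hv⟩ := exists_v hc χ hχ f (fun z hz => by
    have h1 : (⟨z ^ p, hpow z⟩ : Subgroup.center G) = 1 := Subtype.ext (hzp z hz)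
    show χ _ = 1
    rw [h1, map_one])
  have hv' : ∀ g : G, g ^ p = cm v g := by
    intro g
    have h1 := hχ (hv g)
    exact congrArg Subtype.val h1
  -- a maximal elementary abelian subgroup with `v`
  have hne : {A : Subgroup G | EA p A ∧ v ∈ A}.Nonempty := by
    refine ⟨Subgroup.zpowers v, ⟨?_, ?_⟩, Subgroup.mem_zpowers v⟩
    · rintro a ⟨n, rfl⟩
      have h1 : v ^ p = 1 := by rw [hv' v]; simp [cm]
      show (v ^ n) ^ p = 1
      rw [← zpow_natCast, ← zpow_mul, mul_comm, zpow_mul, zpow_natCast, h1, one_zpow]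
    · rintro a ⟨n, rfl⟩ b ⟨m, rfl⟩
      exact (Commute.refl v).zpow_zpow n m
  obtain ⟨M, hM⟩ := (Set.toFinite {A : Subgroup G | EA p A ∧ v ∈ A}).exists_maximal hne
  obtain ⟨⟨hMp, hMc⟩, hvM⟩ := hM.prop
  have hcent : ∀ g : G, (∀ a ∈ M, a * g = g * a) → g ∈ M := by
    intro g hg
    have hgp : g ^ p = 1 := by
      rw [hv' g]
      have := hg v hvM
      unfold cm
      rw [this]; group
    have hS : ∀ x ∈ (M : Set G) ∪ {g}, ∀ y ∈ (M : Set G) ∪ {g}, x * y = y * x := by
      rintro x (hx | hx) y (hy | hy)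
      · exact hMc x hx y hy
      · rw [Set.mem_singleton_iff.1 hy]; exact hg x hx
      · rw [Set.mem_singleton_iff.1 hx]; exact (hg y hy).symm
      · rw [Set.mem_singleton_iff.1 hy, Set.mem_singleton_iff.1 hx]
    have hcl := Subgroup.isMulCommutative_closure hS
    have hcom : ∀ x ∈ Subgroup.closure ((M : Set G) ∪ {g}),
        ∀ y ∈ Subgroup.closure ((M : Set G) ∪ {g}), x * y = y * x := fun x hx y hy =>
      congrArg Subtype.val (hcl.is_comm.comm (⟨x, hx⟩ : Subgroup.closure ((M : Set G) ∪ {g})) ⟨y, hy⟩)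
    have hpp : ∀ x ∈ Subgroup.closure ((M : Set G) ∪ {g}), x ^ p = 1 := by
      intro x hx
      induction hx using Subgroup.closure_induction with
      | mem x hx =>
        rcases hx with hx | hx
        · exact hMp x hx
        · rw [Set.mem_singleton_iff.1 hx]; exact hgp
      | one => exact one_pow p
      | mul x y hx hy h1 h2 =>
        rw [Commute.mul_pow (hcom x hx y hy), h1, h2, mul_one]
      | inv x hx h1 => rw [inv_pow, h1, inv_one]
    have hle : M ≤ Subgroup.closure ((M : Set G) ∪ {g}) := fun a ha =>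
      Subgroup.subset_closure (Or.inl ha)
    have h2 := hM.2 (y := Subgroup.closure ((M : Set G) ∪ {g})) ⟨⟨hpp, hcom⟩, hle hvM⟩ hle
    exact h2 (Subgroup.subset_closure (Or.inr rfl))
  have hZM : ∀ z ∈ Subgroup.center G, z ∈ M := fun z hz =>
    hcent z fun a _ => Subgroup.mem_center_iff.1 hz a
  have hcard : Nat.card M = p ^ (h + 1) := by
    have h1 := card_sq hc χ hχ M hMc hcent
    rw [hG, hZ] at h1
    have h2 : Nat.card M * Nat.card M = p ^ (h + 1) * p ^ (h + 1) := by
      rw [h1]; ring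
    exact Nat.mul_self_inj.1 h2
  have : Nontrivial (Subgroup.center G) := by
    rw [← Finite.one_lt_card_iff_nontrivial, hZ]; exact hp.one_lt
  obtain ⟨z, hz⟩ := exists_ne (1 : Subgroup.center G)
  have hzz : ∀ c ∈ Subgroup.center G, c ∈ Subgroup.zpowers (z : G) := by
    intro c hcz
    have : Fact p.Prime := ⟨hp⟩
    have h1 := mem_zpowers_of_prime_card (p := p) hZ hz (g' := ⟨c, hcz⟩)
    obtain ⟨n, hn⟩ := h1
    exact ⟨n, congrArg Subtype.val hn⟩
  refine ⟨M, z, ⟨hMp, hMc⟩, ?_, ?_, ?_, ?_, ?_, ?_, ?_, ?_⟩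
  · intro g a ha
    have h1 := hZM _ (hc g a)
    have h2 : g * a * g⁻¹ = g * a * g⁻¹ * a⁻¹ * a := by group
    rw [h2]
    exact M.mul_mem h1 ha
  · exact fun g => hZM _ (hpow g)
  · exact fun g g' => hZM _ (hc g g')
  · rw [hG, hcard]; ring
  · exact hZM _ z.2
  · intro h1
    exact hz (Subtype.ext h1)
  · exact fun g => Subgroup.mem_center_iff.1 z.2 g
  · intro g hg
    by_contra hno
    push Not at hno
    apply hg
    apply hcent
    intro a ha
    by_contra hne'
    obtain ⟨g', hg'⟩ := hno a ha (fun h => hne' h.symm)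
    exact hg' (hzz _ (hc g' a))

end Pool.CND
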